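import Pool.Agent.MP_692752_al.Stm

/-! The subgroup that maps to the free group of rank two. -/

set_option autoImplicit false

namespace Pool.Agent.MP_692752_al

open FreeGroup

section
variable {G : Type} [Group G] {D : Subgroup G} (θ : D →* F2)

open Classical in
/-- the extension of `θ` to a function on the whole group -/
noncomputable def ex_Core (z : G) : F2 := if h : z ∈ D then θ ⟨z, h⟩ else 1

theorem ex_mem_Core {z : G} (h : z ∈ D) : ex_Core θ z = θ ⟨z, h⟩ := dif_pos h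

/-- `α` induces `jj w` up to an inner automorphism -/
def Rel_Core (α : MulAut G) (w : F2) : Prop :=
  ∃ γ : F2, ∀ x ∈ D, ex_Core θ (α x) = γ * jj w (ex_Core θ x) * γ⁻¹

variable {θ}

theorem mul_Core {α β : MulAut G} {w w' : F2} (h : Rel_Core θ α w) (h' : Rel_Core θ β w')
    (hβ : β ∈ Stab D) : Rel_Core θ (α * β) (w * w') := by
  obtain ⟨γ, h⟩ := h
  obtain ⟨γ', h'⟩ := h'
  refine ⟨γ * jj w γ', fun x hx => ?_⟩
  rw [MulAut.mul_apply, h _ ((hβ x).2 hx), h' x hx]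
  simp [mul_assoc]

theorem inv_Core {α : MulAut G} {w : F2} (h : Rel_Core θ α w) (hα : α ∈ Stab D) :
    Rel_Core θ α⁻¹ w⁻¹ := by
  obtain ⟨γ, h⟩ := h
  refine ⟨jj w⁻¹ γ⁻¹, fun x hx => ?_⟩
  have e := h _ (((Stab D).inv_mem hα x).2 hx)
  rw [MulAut.apply_inv_self] at e
  rw [e]
  simp [mul_assoc]

theorem sur_Core (hθ : Function.Surjective θ) (z : F2) : ∃ x ∈ D, ex_Core θ x = z := by
  obtain ⟨x, rfl⟩ := hθ z
  exact ⟨x, x.2, ex_mem_Core θ x.2⟩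

theorem uniq_Core (hR : RF_st) (hA : Asada_st) (hθ : Function.Surjective θ) {α : MulAut G}
    {w w' : F2} (h : Rel_Core θ α w) (h' : Rel_Core θ α w') (hα : α ∈ Stab D) : w = w' := by
  obtain ⟨γ, e⟩ := mul_Core h (inv_Core h' hα) ((Stab D).inv_mem hα)
  by_contra c
  obtain ⟨Q, _, _, π, hπ⟩ := hR _ (w * w'⁻¹) fun c' => c (mul_inv_eq_one.1 c')
  obtain ⟨Q', _, _, π', hπ'⟩ := hA Q π
  refine hπ (hπ' γ _ fun z => ?_)
  obtain ⟨x, hx, rfl⟩ := sur_Core hθ z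
  rw [← e x hx, mul_inv_cancel, MulAut.one_apply]

theorem ker_Core {x : G} : x ∈ θ.ker.map D.subtype ↔ x ∈ D ∧ ex_Core θ x = 1 := by
  constructor
  · rintro ⟨y, hy, rfl⟩
    exact ⟨y.2, (ex_mem_Core θ y.2).trans hy⟩
  · exact fun ⟨h, e⟩ => ⟨⟨x, h⟩, (ex_mem_Core θ h).symm.trans e, rfl⟩

theorem hom_Core (hθ : Function.Surjective θ) {α : MulAut G}
    (hα : α ∈ Stab D ⊓ Stab (θ.ker.map D.subtype)) :
    ∃ f : F2 →* F2, ∀ x ∈ D, f (ex_Core θ x) = ex_Core θ (α x) := by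
  let r : D →* D := (α.toMonoidHom.comp D.subtype).codRestrict D fun x => (hα.1 x).2 x.2
  refine ⟨θ.liftOfSurjective hθ ⟨θ.comp r, fun x hx => ?_⟩, fun x hx => ?_⟩
  · exact (ex_mem_Core θ (r x).2).symm.trans (ker_Core.1 ((hα.2 x).2 ⟨x, hx, rfl⟩)).2
  · rw [ex_mem_Core θ hx, MonoidHom.liftOfRightInverse_comp_apply]
    exact (ex_mem_Core θ (r ⟨x, hx⟩).2).symm

theorem gam_Core (hG : Gam4_st) (hθ : Function.Surjective θ) {α : MulAut G}
    (hα : α ∈ Stab D ⊓ Stab (θ.ker.map D.subtype))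
    (h : ∀ x ∈ D, ab4 (ex_Core θ (α x)) = ab4 (ex_Core θ x)) : ∃ w, Rel_Core θ α w := by
  obtain ⟨f, hf⟩ := hom_Core hθ hα
  obtain ⟨g, hg⟩ := hom_Core hθ (inv_mem hα)
  have h1 : g.comp f = MonoidHom.id _ := MonoidHom.ext fun z => by
    obtain ⟨x, hx, rfl⟩ := sur_Core hθ z
    rw [MonoidHom.comp_apply, hf x hx, hg _ ((hα.1 x).2 hx), MulAut.inv_apply_self]
    rfl
  have h2 : f.comp g = MonoidHom.id _ := MonoidHom.ext fun z => by
    obtain ⟨x, hx, rfl⟩ := sur_Core hθ z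
    rw [MonoidHom.comp_apply, hg x hx, hf _ (((inv_mem hα).1 x).2 hx), MulAut.apply_inv_self]
    rfl
  obtain ⟨γ, w, e⟩ := hG (MonoidHom.toMulEquiv f g h1 h2) fun z => by
    obtain ⟨x, hx, rfl⟩ := sur_Core hθ z
    exact (congrArg ab4 (hf x hx)).trans (h x hx)
  exact ⟨w, γ, fun x hx => (hf x hx).symm.trans (e _)⟩

variable (θ)

theorem lev_Core (hD : D.FiniteIndex) {Q : Type} [Group Q] [Finite Q] (π : F2 →* Q) :
    ∃ (Q' : Type) (_ : Group Q') (_ : Finite Q') (π' : G →* Q'), ∀ a b, π' a = π' b → b ∈ D →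
      a ∈ D ∧ π (ex_Core θ a) = π (ex_Core θ b) := by
  have : ((π.comp θ).ker.map D.subtype).FiniteIndex := ⟨by
    rw [Subgroup.index_map_subtype]
    exact mul_ne_zero Subgroup.FiniteIndex.index_ne_zero hD.index_ne_zero⟩
  refine ⟨_, _, inferInstance, QuotientGroup.mk' ((π.comp θ).ker.map D.subtype).normalCore,
    fun a b e hb => ?_⟩
  obtain ⟨n, hn, e⟩ := Subgroup.normalCore_le _ (QuotientGroup.eq.1 e.symm)
  obtain rfl : a = b * n := by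
    rw [show (n : G) = b⁻¹ * a from e, mul_inv_cancel_left]
  refine ⟨D.mul_mem hb n.2, ?_⟩
  rw [ex_mem_Core θ hb, ex_mem_Core θ (D.mul_mem hb n.2),
    show θ ⟨b * n, D.mul_mem hb n.2⟩ = θ ⟨b, hb⟩ * θ n from θ.map_mul ⟨b, hb⟩ n, π.map_mul,
    show π (θ n) = 1 from hn, mul_one]

/-- the automorphisms that induce an element of the image of `jj` up to inner automorphisms -/
def T_Core : Subgroup (MulAut G) where
  carrier := {α | α ∈ Stab D ∧ ∃ w, Rel_Core θ α w}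
  one_mem' := ⟨one_mem _, 1, 1, fun x _ => by simp⟩
  mul_mem' := fun ⟨ha, _, h⟩ ⟨hb, _, h'⟩ => ⟨mul_mem ha hb, _, mul_Core h h' hb⟩
  inv_mem' := fun ⟨ha, _, h⟩ => ⟨inv_mem ha, _, inv_Core h ha⟩

end

theorem core_ok (hC : Cong_st) (hR : RF_st) (hA : Asada_st) (hG : Gam4_st) : Core_st := by
  intro G _ hfg D hD θ hθ
  have L1 : ∀ (Q : Type) [Group Q] [Finite Q] (π : F2 →* Q), ∃ B : Subgroup (MulAut G),
      B.FiniteIndex ∧ ∀ β ∈ B, ∀ z ∈ D, π (ex_Core θ (β z)) = π (ex_Core θ z) := by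
    intro Q _ _ π
    obtain ⟨Q', _, _, π', h⟩ := lev_Core θ hD π
    obtain ⟨B, h1, h2⟩ := (hC G hfg Q' π').1
    exact ⟨B, h1, fun β hβ z hz => (h _ _ (h2 β hβ z) hz).2⟩
  have L2 : ∀ (Q : Type) [Group Q] [Finite Q] (π : F2 →* Q), ∀ a ∈ cl (T_Core θ),
      ∃ h ∈ T_Core θ, ∀ z ∈ D, a z ∈ D ∧ π (ex_Core θ (a z)) = π (ex_Core θ (h z)) := by
    intro Q _ _ π a ha
    obtain ⟨Q', _, _, π', h⟩ := lev_Core θ hD π
    obtain ⟨b, h1, h2⟩ := (hC G hfg Q' π').2 _ a ha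
    exact ⟨b, h1, fun z hz => h _ _ (h2 z) ((h1.1 z).2 hz)⟩
  have L3 : ∀ a ∈ cl (T_Core θ), ∀ z ∈ D, a z ∈ D := fun a ha z hz =>
    ((L2 _ ab4 a ha).choose_spec.2 z hz).1
  have L4 : ∀ a ∈ cl (T_Core θ), ∀ z ∈ θ.ker.map D.subtype, a z ∈ θ.ker.map D.subtype := by
    intro a ha z hz
    obtain ⟨hz, e⟩ := ker_Core.1 hz
    refine ker_Core.2 ⟨L3 a ha z hz, by_contra fun c => ?_⟩
    obtain ⟨Q, _, _, π, hπ⟩ := hR _ _ c
    obtain ⟨b, ⟨-, w, γ, h1⟩, h2⟩ := L2 Q π a ha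
    refine hπ ?_
    rw [(h2 z hz).2, h1 z hz, e]
    simp
  have L5 : ∀ a ∈ cl (T_Core θ), a ∈ Stab D ⊓ Stab (θ.ker.map D.subtype) := fun a ha =>
    ⟨fun z => ⟨fun h => by simpa using L3 _ (inv_mem ha) _ h, L3 a ha z⟩,
      fun z => ⟨fun h => by simpa only [MulAut.inv_apply_self] using L4 _ (inv_mem ha) _ h,
        L4 a ha z⟩⟩
  refine ⟨T_Core θ, MonoidHom.mk' (fun t => t.2.2.choose) fun a b => uniq_Core hR hA hθ
    (a * b).2.2.choose_spec (mul_Core a.2.2.choose_spec b.2.2.choose_spec b.2.1) (a * b).2.1,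
    fun a ha => ?_, fun M hM => ?_, fun c => ?_, fun t ht => ?_⟩
  · obtain ⟨b, h1, h2⟩ := L2 _ ab4 a ha
    have h3 := L5 _ (mul_mem ha (inv_mem (fun K _ hK => hK h1 : b ∈ cl (T_Core θ))))
    refine (Subgroup.mul_mem_cancel_right _ (inv_mem h1)).1 ⟨h3.1, gam_Core hG hθ h3 fun x hx => ?_⟩
    rw [MulAut.mul_apply, (h2 _ (((inv_mem h1).1 x).2 hx)).2, MulAut.apply_inv_self]
  · obtain ⟨Q', _, _, π', h⟩ := hA _ (QuotientGroup.mk' M.normalCore)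
    obtain ⟨B, h1, h2⟩ := L1 Q' π'
    refine ⟨B, h1, fun t ht => ?_⟩
    obtain ⟨γ, e⟩ := t.2.2.choose_spec
    refine M.normalCore_le ((QuotientGroup.eq_one_iff _).1 (h γ _ fun z => ?_))
    obtain ⟨x, hx, rfl⟩ := sur_Core hθ z
    exact (congrArg π' (e x hx)).symm.trans (h2 _ ht x hx)
  · obtain ⟨B, h1, h2⟩ := L1 _ ab4
    have h3 := Subgroup.relIndex_eq_zero_of_le_left (H := B ⊓ (Stab D ⊓ Stab _))
      (K := T_Core θ) (fun β hβ => ⟨hβ.2.1, gam_Core hG hθ hβ.2 (h2 β hβ.1)⟩) c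
    rw [Subgroup.inf_relIndex_right] at h3
    exact Subgroup.FiniteIndex.index_ne_zero h3
  · obtain ⟨γ, e⟩ : Rel_Core θ t 1 := (show t.2.2.choose = 1 from ht) ▸ t.2.2.choose_spec
    refine ⟨γ, fun x => ⟨(t.2.1 x).2 x.2, ?_⟩⟩
    rw [← ex_mem_Core, e x x.2, ex_mem_Core θ x.2]
    simp

end Pool.Agent.MP_692752_al
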