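import Pool.Agent.MP_692752_al.All
import Pool.Agent.MP_692752_al.Niel
import Pool.Agent.MP_692752_al.Gam4
import Pool.Agent.MP_692752_al.Asada
import Pool.Agent.MP_692752_al.Core

set_option autoImplicit false

namespace Pool.Agent.MP_692752_al.FreeQ

open Pool.Agent.MP_692752_al

theorem t3_all (g : ℕ) (hg : 2 ≤ g) (D : Subgroup (Surf g)) (hD : D.FiniteIndex)
    (θ : D →* FreeGroup (Fin 2)) (hθ : Function.Surjective θ)
    (H : Subgroup (Out (Surf g))) (hH : H.FG)
    (h1 : (Stab D ⊓ Stab (θ.ker.map D.subtype)).relIndex (H.comap (toOut (Surf g))) ≠ 0)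
    (h2 : {φ : Out (Surf g) | φ ∈ H ∧
      ∃ α : MulAut (Surf g), toOut (Surf g) α = φ ∧ ActsInner D θ α}.Finite) :
    Separable H :=
  t3_of out_all
    (core_ok cong_ok (rf_ok cp_ok) (asada_ok cf_ok)
      (gam4_ok (niel_ok fourP_ok four_ok pre_ok par_ok sq_ok)))
    (Surf g) (surf_fg g) (gr_all g hg) D hD θ hθ H hH h1 h2

end Pool.Agent.MP_692752_al.FreeQ
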