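import Pool.Agent.MP_692752_al.Stm

/-! The Prym representation of a finite index subgroup of the automorphisms of the genus two
surface group. -/

set_option autoImplicit false

namespace Pool.Agent.MP_692752_al

open FreeGroup

/-- padding a representation on a lattice of rank at most two -/
theorem pad_Prym {T L : Type} [Group T] [AddCommGroup L] [Module.Finite ℤ L] [Module.Free ℤ L]
    (h : Module.finrank ℤ L ≤ 2) (act : T →* Module.End ℤ L) :
    ∃ ρ : T →* GL (Fin 2) ℤ, ∀ t, ρ t = 1 → act t = 1 := by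
  have hM : Module.finrank ℤ (L × (Fin (2 - Module.finrank ℤ L) → ℤ)) = 2 := by
    rw [Module.finrank_prod, Module.finrank_fin_fun]
    omega
  let b := Module.finBasisOfFinrankEq ℤ (L × (Fin (2 - Module.finrank ℤ L) → ℤ)) hM
  let φ : Module.End ℤ L →* Module.End ℤ (L × (Fin (2 - Module.finrank ℤ L) → ℤ)) :=
    { toFun := fun f => LinearMap.prodMap f LinearMap.id
      map_one' := LinearMap.ext fun x => rfl
      map_mul' := fun f g => LinearMap.ext fun x => rfl }
  let ψ : Module.End ℤ (L × (Fin (2 - Module.finrank ℤ L) → ℤ)) →* Matrix (Fin 2) (Fin 2) ℤ :=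
    (LinearMap.toMatrixAlgEquiv b).toMulEquiv.toMonoidHom
  refine ⟨MonoidHom.toHomUnits (ψ.comp (φ.comp act)), fun t ht => ?_⟩
  have h1 : ψ (φ (act t)) = 1 := by
    have := congrArg Units.val ht
    simpa using this
  have h2 : φ (act t) = 1 := by
    apply (LinearMap.toMatrixAlgEquiv b).injective
    rw [_root_.map_one]
    exact h1
  refine LinearMap.ext fun x => ?_
  have h3 := congrArg Prod.fst (LinearMap.congr_fun h2 (x, 0))
  exact h3

theorem rn_Prym {M N : Type} [AddCommGroup M] [AddCommGroup N] [Module.Finite ℤ M]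
    (f : M →ₗ[ℤ] N) : Module.finrank ℤ (LinearMap.range f) + Module.finrank ℤ (LinearMap.ker f) =
      Module.finrank ℤ M := by
  rw [← f.quotKerEquivRange.finrank_eq]
  exact Submodule.finrank_quotient_add_finrank _

section
variable {G : Type} [Group G] (χ : G →* ℤˣ)

/-- the automorphisms that fix the character -/
def T_Prym : Subgroup (MulAut G) where
  carrier := {α | ∀ z, χ (α z) = χ z}
  one_mem' := fun _ => rfl
  mul_mem' := fun {a b} ha hb z => (ha (b z)).trans (hb z)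
  inv_mem' := fun {a} ha z => by
    have := ha (a⁻¹ z)
    simpa using this.symm

/-- the crossed homomorphisms -/
def Z_Prym : Submodule ℤ (G → ℤ) where
  carrier := {f | Crossed χ f}
  add_mem' := fun {f g} hf hg a b => by
    simp only [Pi.add_apply]
    rw [hf a b, hg a b]
    ring
  zero_mem' := fun a b => by simp
  smul_mem' := fun c f hf a b => by
    simp only [Pi.smul_apply, smul_eq_mul]
    rw [hf a b]
    ring

/-- restriction to the kernel of the character -/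
def res_Prym : Z_Prym χ →ₗ[ℤ] (χ.ker → ℤ) where
  toFun f z := f.1 z.1
  map_add' _ _ := rfl
  map_smul' _ _ := rfl

theorem mem_Prym (t : T_Prym χ) (z : χ.ker) : (t : MulAut G)⁻¹ z.1 ∈ χ.ker := by
  have h := (t⁻¹).2 z.1
  rw [MonoidHom.mem_ker]
  exact h.trans z.2

/-- the action on functions on the kernel -/
def actF_Prym (t : T_Prym χ) : (χ.ker → ℤ) →ₗ[ℤ] (χ.ker → ℤ) where
  toFun g z := g ⟨(t : MulAut G)⁻¹ z.1, mem_Prym χ t z⟩
  map_add' _ _ := rfl
  map_smul' _ _ := rfl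

theorem actF_mem_Prym (t : T_Prym χ) : ∀ g ∈ LinearMap.range (res_Prym χ),
    actF_Prym χ t g ∈ LinearMap.range (res_Prym χ) := by
  rintro _ ⟨f, rfl⟩
  refine ⟨⟨fun z => f.1 ((t : MulAut G)⁻¹ z), fun a b => ?_⟩, rfl⟩
  have h := (t⁻¹).2 a
  have h' : χ ((t : MulAut G)⁻¹ a) = χ a := h
  simp only [_root_.map_mul]
  rw [f.2, h']

/-- the action on the restrictions of the crossed homomorphisms -/
def act_Prym : T_Prym χ →* Module.End ℤ (LinearMap.range (res_Prym χ)) where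
  toFun t := (actF_Prym χ t).restrict (actF_mem_Prym χ t)
  map_one' := LinearMap.ext fun _ => rfl
  map_mul' _ _ := LinearMap.ext fun _ => rfl

theorem triv_Prym (t : T_Prym χ) (h : act_Prym χ t = 1) : PrymTrivial χ t := by
  refine ⟨t.2, fun f hf z hz => ?_⟩
  have hz' : (t : MulAut G) z ∈ χ.ker := (t.2 z).trans hz
  have h1 := LinearMap.congr_fun h ⟨res_Prym χ ⟨f, hf⟩, ⟨_, rfl⟩⟩
  have h2 := congrFun (congrArg Subtype.val h1) ⟨_, hz'⟩
  have h3 : f ((t : MulAut G)⁻¹ ((t : MulAut G) z)) = f ((t : MulAut G) z) := h2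
  rw [MulAut.inv_apply_self] at h3
  exact h3.symm

variable {χ}

theorem one_Prym {f : G → ℤ} (hf : Crossed χ f) : f 1 = 0 := by
  have h := hf 1 1
  simp only [mul_one, _root_.map_one, Units.val_one, one_mul] at h
  linarith

theorem sq_Prym (a : G) : (χ a : ℤ) * (χ a : ℤ) = 1 := by
  rcases Int.units_eq_one_or (χ a) with h | h <;> simp [h]

theorem inv_Prym {f : G → ℤ} (hf : Crossed χ f) (a : G) : f a⁻¹ = -(χ a : ℤ) * f a := by
  have h := hf a a⁻¹
  rw [mul_inv_cancel, one_Prym hf] at h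
  have h2 := sq_Prym (χ := χ) a
  linear_combination (-(χ a : ℤ)) * h - f a⁻¹ * h2

theorem comm_Prym {f : G → ℤ} (hf : Crossed χ f) (a b c : G) :
    f (a * b * a⁻¹ * b⁻¹ * c) = (1 - (χ b : ℤ)) * f a + ((χ a : ℤ) - 1) * f b + f c := by
  have ha := sq_Prym (χ := χ) a
  have hb := sq_Prym (χ := χ) b
  have hχ : χ (a * b * a⁻¹ * b⁻¹) = 1 := by
    simp only [_root_.map_mul, _root_.map_inv]
    rw [mul_comm (χ a) (χ b), mul_inv_cancel_right, mul_inv_cancel]
  have hχ' : χ (a * b * a⁻¹) = χ b := by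
    simp only [_root_.map_mul, _root_.map_inv]
    rw [mul_comm (χ a) (χ b), mul_inv_cancel_right]
  rw [hf, hχ, hf, hχ', hf, hf, inv_Prym hf, inv_Prym hf, _root_.map_mul, Units.val_mul,
    Units.val_one]
  linear_combination (-(χ b : ℤ) * f a) * ha - f b * hb

theorem ker_Prym (hχ : χ ≠ 1) : LinearMap.ker (res_Prym χ) ≠ ⊥ := by
  obtain ⟨z, hz⟩ : ∃ z, χ z ≠ 1 := by
    by_contra h
    push Not at h
    exact hχ (MonoidHom.ext h)
  rw [Submodule.ne_bot_iff]
  refine ⟨⟨fun a => 1 - (χ a : ℤ), fun a b => ?_⟩, ?_, fun h => hz ?_⟩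
  · simp only [_root_.map_mul, Units.val_mul]
    ring
  · rw [LinearMap.mem_ker]
    funext w
    have hw : χ w.1 = 1 := w.2
    show 1 - (χ w.1 : ℤ) = 0
    rw [hw]
    simp
  · have h1 : 1 - (χ z : ℤ) = 0 := congrFun (congrArg Subtype.val h) z
    apply Units.ext
    rw [Units.val_one]
    linarith

end

/-- the standard generators -/
def gen_Prym (i : Fin 2 ⊕ Fin 2) : Surf 2 :=
  (PresentedGroup.of i : PresentedGroup ({surfRel 2} : Set (FreeGroup (Fin 2 ⊕ Fin 2))))

theorem clo_Prym : Subgroup.closure (Set.range gen_Prym) = ⊤ :=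
  PresentedGroup.closure_range_of ({surfRel 2} : Set (FreeGroup (Fin 2 ⊕ Fin 2)))

theorem fg_Prym : Group.FG (Surf 2) :=
  Group.fg_iff.2 ⟨Set.range gen_Prym, clo_Prym, Set.finite_range _⟩

theorem rel_Prym : gen_Prym (.inl 0) * gen_Prym (.inr 0) * (gen_Prym (.inl 0))⁻¹ *
    (gen_Prym (.inr 0))⁻¹ * (gen_Prym (.inl 1) * gen_Prym (.inr 1) * (gen_Prym (.inl 1))⁻¹ *
    (gen_Prym (.inr 1))⁻¹ * 1) = 1 := by
  have h : PresentedGroup.mk ({surfRel 2} : Set (FreeGroup (Fin 2 ⊕ Fin 2))) (surfRel 2) = 1 :=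
    PresentedGroup.one_of_mem rfl
  have h2 : surfRel 2 = FreeGroup.of (Sum.inl 0) * FreeGroup.of (Sum.inr 0) *
      (FreeGroup.of (Sum.inl 0))⁻¹ * (FreeGroup.of (Sum.inr 0))⁻¹ *
      (FreeGroup.of (Sum.inl 1) * FreeGroup.of (Sum.inr 1) * (FreeGroup.of (Sum.inl 1))⁻¹ *
      (FreeGroup.of (Sum.inr 1))⁻¹ * 1) := by
    simp [surfRel, List.ofFn_succ]
  have h3 := congrArg (PresentedGroup.mk ({surfRel 2} : Set (FreeGroup (Fin 2 ⊕ Fin 2)))) h2
  rw [h] at h3
  simp only [_root_.map_mul, _root_.map_inv, _root_.map_one] at h3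
  exact h3.symm

/-- evaluation on the generators -/
def ev_Prym (χ : Surf 2 →* ℤˣ) : Z_Prym χ →ₗ[ℤ] (Fin 2 ⊕ Fin 2 → ℤ) where
  toFun f i := f.1 (gen_Prym i)
  map_add' _ _ := rfl
  map_smul' _ _ := rfl

theorem ev_inj_Prym (χ : Surf 2 →* ℤˣ) : Function.Injective (ev_Prym χ) := by
  rw [injective_iff_map_eq_zero]
  intro f hf
  apply Subtype.ext
  funext z
  have hz : z ∈ Subgroup.closure (Set.range gen_Prym) := by
    rw [clo_Prym]
    trivial
  show f.1 z = 0
  induction hz using Subgroup.closure_induction with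
  | mem x hx =>
    obtain ⟨i, rfl⟩ := hx
    exact congrFun hf i
  | one => exact one_Prym f.2
  | mul x y _ _ hx hy => rw [f.2, hx, hy]; simp
  | inv x _ hx => rw [inv_Prym f.2, hx]; simp

/-- the linear form given by the relator -/
def r_Prym (χ : Surf 2 →* ℤˣ) : (Fin 2 ⊕ Fin 2 → ℤ) →ₗ[ℤ] ℤ where
  toFun v := (1 - (χ (gen_Prym (.inr 0)) : ℤ)) * v (.inl 0) +
    ((χ (gen_Prym (.inl 0)) : ℤ) - 1) * v (.inr 0) +
    ((1 - (χ (gen_Prym (.inr 1)) : ℤ)) * v (.inl 1) +
    ((χ (gen_Prym (.inl 1)) : ℤ) - 1) * v (.inr 1))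
  map_add' v w := by
    simp only [Pi.add_apply]
    ring
  map_smul' c v := by
    simp only [Pi.smul_apply, smul_eq_mul, RingHom.id_apply]
    ring

theorem r_ev_Prym (χ : Surf 2 →* ℤˣ) (f : Z_Prym χ) : r_Prym χ (ev_Prym χ f) = 0 := by
  have h := congrArg f.1 rel_Prym
  rw [comm_Prym f.2, comm_Prym f.2, one_Prym f.2, add_zero] at h
  exact h

theorem r_ne_Prym (χ : Surf 2 →* ℤˣ) (hχ : χ ≠ 1) : r_Prym χ ≠ 0 := by
  intro h
  apply hχ
  have h0 : ∀ v, r_Prym χ v = 0 := fun v => by rw [h]; rfl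
  have hg : ∀ i, χ (gen_Prym i) = 1 := by
    have h1 := h0 (Pi.single (.inl 0) 1)
    have h2 := h0 (Pi.single (.inr 0) 1)
    have h3 := h0 (Pi.single (.inl 1) 1)
    have h4 := h0 (Pi.single (.inr 1) 1)
    simp [r_Prym, sub_eq_zero] at h1 h2 h3 h4
    intro i
    apply Units.ext
    rw [Units.val_one]
    rcases i with i | i <;> fin_cases i
    · simpa using h2
    · simpa using h4
    · simpa using h1.symm
    · simpa using h3.symm
  apply MonoidHom.eq_of_eqOn_dense clo_Prym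
  rintro _ ⟨i, rfl⟩
  simpa using hg i

theorem rankZ_Prym (χ : Surf 2 →* ℤˣ) (hχ : χ ≠ 1) : Module.finrank ℤ (Z_Prym χ) ≤ 3 := by
  have h1 := rn_Prym (r_Prym χ)
  have h2 : Module.finrank ℤ (LinearMap.range (r_Prym χ)) ≠ 0 := by
    rw [Ne, Submodule.finrank_eq_zero, LinearMap.range_eq_bot]
    exact r_ne_Prym χ hχ
  have h3 : Module.finrank ℤ (Fin 2 ⊕ Fin 2 → ℤ) = 4 := by simp
  have h4 : Module.finrank ℤ (Z_Prym χ) ≤ Module.finrank ℤ (LinearMap.ker (r_Prym χ)) := by
    refine LinearMap.finrank_le_finrank_of_injective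
      (f := (ev_Prym χ).codRestrict _ (r_ev_Prym χ)) ?_
    intro a b hab
    exact ev_inj_Prym χ (congrArg Subtype.val hab)
  omega

theorem prym_ok (hC : Cong_st) : Prym_st := by
  intro χ hχ
  obtain ⟨B, hB, hBT⟩ := (hC (Surf 2) fg_Prym ℤˣ χ).1
  haveI : Module.Finite ℤ (Z_Prym χ) := Module.Finite.of_injective _ (ev_inj_Prym χ)
  haveI : Module.Finite ℤ (LinearMap.range (res_Prym χ)) := Module.Finite.range _
  have h1 := rn_Prym (res_Prym χ)
  have h2 : Module.finrank ℤ (LinearMap.ker (res_Prym χ)) ≠ 0 := by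
    rw [Ne, Submodule.finrank_eq_zero]
    exact ker_Prym hχ
  have h3 := rankZ_Prym χ hχ
  obtain ⟨ρ, hρ⟩ := pad_Prym (L := LinearMap.range (res_Prym χ)) (by omega) (act_Prym χ)
  refine ⟨T_Prym χ, ρ, ?_, fun t ht => triv_Prym χ t (hρ t ht)⟩
  exact Subgroup.finiteIndex_of_le (H := B) fun β hβ => hBT β hβ

end Pool.Agent.MP_692752_al
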