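import Pool.Agent.MP_692752_al.All
import Pool.Agent.MP_692752_al.GL2
import Pool.Agent.MP_692752_al.Prym

set_option autoImplicit false

namespace Pool.Agent.Results.MP_692752_al.PrymGenusTwo

open Pool.Agent.MP_692752_al

theorem result (χ : Surf 2 →* ℤˣ) (hχ : χ ≠ 1) (H : Subgroup (Out (Surf 2))) (hH : H.FG)
    (h : {φ : Out (Surf 2) | φ ∈ H ∧
      ∃ α : MulAut (Surf 2), toOut (Surf 2) α = φ ∧ PrymTrivial χ α}.Finite) :
    Separable H :=
  t4_of out_all gl2_ok (prym_ok cong_ok) (surf_fg 2) (gr_all 2 le_rfl) χ hχ H hH h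

end Pool.Agent.Results.MP_692752_al.PrymGenusTwo
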