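import Pool.Agent.MP_692752_al.Stm3

/-! The surface group is a subgroup of index two of the group of the sphere with cone points. -/

set_option autoImplicit false

namespace Pool.Agent.MP_692752_al

open FreeGroup

/-- the ordered product of the first `n` values -/
def pr_RExist {H : Type} [Group H] (f : ℕ → H) (n : ℕ) : H :=
  (List.ofFn fun i : Fin n => f i.val).prod

theorem pr0_RExist {H : Type} [Group H] (f : ℕ → H) : pr_RExist f 0 = 1 := by
  simp [pr_RExist]

theorem prS_RExist {H : Type} [Group H] (f : ℕ → H) (n : ℕ) :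
    pr_RExist f (n + 1) = pr_RExist f n * f n := by
  rw [pr_RExist, List.ofFn_succ', List.prod_concat]
  rfl

/-- the products of an odd number of factors -/
def dl_RExist {H : Type} [Group H] (c : ℕ → H) : ℕ → H
  | 0 => c 0
  | i + 1 => dl_RExist c i * c (2 * i + 1) * c (2 * i + 2)

theorem dl_pr_RExist {H : Type} [Group H] (c : ℕ → H) (i : ℕ) :
    dl_RExist c i = pr_RExist c (2 * i + 1) := by
  induction i with
  | zero => rw [dl_RExist, prS_RExist, pr0_RExist, one_mul]
  | succ i ih =>
    rw [dl_RExist, ih, show 2 * (i + 1) + 1 = 2 * i + 1 + 1 + 1 by ring, prS_RExist c (2 * i + 1 + 1),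
      prS_RExist c (2 * i + 1)]

theorem dl_map_RExist {H K : Type} [Group H] [Group K] (f : H →* K) (c : ℕ → H) (i : ℕ) :
    f (dl_RExist c i) = dl_RExist (fun l => f (c l)) i := by
  induction i with
  | zero => rfl
  | succ i ih => rw [dl_RExist, dl_RExist, _root_.map_mul, _root_.map_mul, ih]

theorem dl_sq_RExist {H : Type} [Group H] (c : ℕ → H) (hc : ∀ l, c l * c l = 1) (i : ℕ) :
    dl_RExist c i * dl_RExist c i = pr_RExist (fun l =>
      ((dl_RExist c l)⁻¹ * c (2 * l + 1)) * (c (2 * l + 2) * dl_RExist c l) *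
      ((dl_RExist c l)⁻¹ * c (2 * l + 1))⁻¹ * (c (2 * l + 2) * dl_RExist c l)⁻¹) i := by
  have hi : ∀ l, (c l)⁻¹ = c l := fun l => inv_eq_of_mul_eq_one_right (hc l)
  induction i with
  | zero => rw [pr0_RExist, dl_RExist, hc]
  | succ i ih =>
    rw [prS_RExist, ← ih, dl_RExist, mul_inv_rev, mul_inv_rev, hi, hi]
    group

/-- the cone points with natural number indices -/
def c_RExist (g l : ℕ) : Sph (2 * g + 2) := if h : l < 2 * g + 2 then cs ⟨l, h⟩ else 1

theorem cc_RExist (g l : ℕ) : c_RExist g l * c_RExist g l = 1 := by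
  unfold c_RExist
  split_ifs
  · exact cs_cs _
  · exact one_mul _

theorem ci_RExist (g l : ℕ) : (c_RExist g l)⁻¹ = c_RExist g l :=
  inv_eq_of_mul_eq_one_right (cc_RExist g l)

theorem cv_RExist (g : ℕ) (i : Fin (2 * g + 2)) : c_RExist g i.val = cs i := by
  rw [c_RExist, dif_pos i.2]

theorem dl_last_RExist (g : ℕ) : dl_RExist (c_RExist g) g = c_RExist g (2 * g + 1) := by
  have h : pr_RExist (c_RExist g) (2 * g + 1 + 1) = 1 := by
    rw [pr_RExist]
    simp only [cv_RExist]
    exact cs_prod _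
  rw [prS_RExist, ← dl_pr_RExist] at h
  rw [← ci_RExist]
  exact eq_inv_of_mul_eq_one_left h

/-- the projection to the surface group -/
def mk_RExist (g : ℕ) : FreeGroup (Fin g ⊕ Fin g) →* Surf g := PresentedGroup.mk _

/-- the first generators -/
def a_RExist (g l : ℕ) : Surf g := if h : l < g then mk_RExist g (of (Sum.inl ⟨l, h⟩)) else 1

/-- the second generators -/
def b_RExist (g l : ℕ) : Surf g := if h : l < g then mk_RExist g (of (Sum.inr ⟨l, h⟩)) else 1

theorem av_RExist (g : ℕ) (i : Fin g) : a_RExist g i.val = mk_RExist g (of (Sum.inl i)) := by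
  rw [a_RExist, dif_pos i.2]

theorem bv_RExist (g : ℕ) (i : Fin g) : b_RExist g i.val = mk_RExist g (of (Sum.inr i)) := by
  rw [b_RExist, dif_pos i.2]

/-- the products of the commutators -/
def P_RExist (g : ℕ) : ℕ → Surf g := pr_RExist fun l =>
  a_RExist g l * b_RExist g l * (a_RExist g l)⁻¹ * (b_RExist g l)⁻¹

theorem Pg_RExist (g : ℕ) : P_RExist g g = 1 := by
  have h : mk_RExist g (surfRel g) = 1 := PresentedGroup.one_of_mem (Set.mem_singleton _)
  rw [surfRel, map_list_prod, List.map_ofFn] at h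
  rw [P_RExist, pr_RExist, ← h]
  simp only [av_RExist, bv_RExist, Function.comp_def, _root_.map_mul, _root_.map_inv]

/-- the images of the generators -/
def jf_RExist (g : ℕ) : Fin g ⊕ Fin g → Sph (2 * g + 2)
  | Sum.inl i => (dl_RExist (c_RExist g) i.val)⁻¹ * c_RExist g (2 * i.val + 1)
  | Sum.inr i => c_RExist g (2 * i.val + 2) * dl_RExist (c_RExist g) i.val

theorem jrel_RExist (g : ℕ) : ∀ r ∈ ({surfRel g} : Set (FreeGroup (Fin g ⊕ Fin g))),
    FreeGroup.lift (jf_RExist g) r = 1 := by
  rintro r rfl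
  have h := dl_sq_RExist (c_RExist g) (cc_RExist g) g
  rw [dl_last_RExist, cc_RExist, pr_RExist] at h
  rw [surfRel, map_list_prod, List.map_ofFn, h]
  simp only [Function.comp_def, _root_.map_mul, _root_.map_inv, FreeGroup.lift_apply_of, jf_RExist]

/-- the inclusion -/
def j_RExist (g : ℕ) : Surf g →* Sph (2 * g + 2) := PresentedGroup.toGroup (jrel_RExist g)

theorem jmk_RExist (g : ℕ) (s : Fin g ⊕ Fin g) :
    j_RExist g (mk_RExist g (of s)) = jf_RExist g s :=
  PresentedGroup.toGroup.of (jrel_RExist g)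

theorem ja_RExist (g l : ℕ) (h : l < g) : j_RExist g (a_RExist g l) =
    (dl_RExist (c_RExist g) l)⁻¹ * c_RExist g (2 * l + 1) := by
  rw [a_RExist, dif_pos h, jmk_RExist]
  rfl

theorem jb_RExist (g l : ℕ) (h : l < g) : j_RExist g (b_RExist g l) =
    c_RExist g (2 * l + 2) * dl_RExist (c_RExist g) l := by
  rw [b_RExist, dif_pos h, jmk_RExist]
  rfl

/-- the products of the inverses of the generators -/
def U_RExist (g : ℕ) : ℕ → Surf g
  | 0 => 1
  | i + 1 => U_RExist g i * (a_RExist g i)⁻¹ * (b_RExist g i)⁻¹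

/-- the Schreier generators -/
def k_RExist (g : ℕ) : ℕ → Surf g
  | 0 => 1
  | l + 1 => if l % 2 = 0 then U_RExist g (l / 2) * a_RExist g (l / 2)
      else U_RExist g (l / 2) * (b_RExist g (l / 2))⁻¹

theorem k1_RExist (g i : ℕ) : k_RExist g (2 * i + 1) = U_RExist g i * a_RExist g i := by
  rw [k_RExist, if_pos (by omega), show 2 * i / 2 = i by omega]

theorem k2_RExist (g i : ℕ) : k_RExist g (2 * i + 2) = U_RExist g i * (b_RExist g i)⁻¹ := by
  rw [show 2 * i + 2 = (2 * i + 1) + 1 from rfl, k_RExist, if_neg (by omega),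
    show (2 * i + 1) / 2 = i by omega]

theorem jU_RExist (g i : ℕ) (h : i ≤ g) :
    j_RExist g (U_RExist g i) = c_RExist g 0 * dl_RExist (c_RExist g) i := by
  induction i with
  | zero => rw [U_RExist, dl_RExist, cc_RExist, _root_.map_one]
  | succ i ih =>
    rw [U_RExist, _root_.map_mul, _root_.map_mul, _root_.map_inv, _root_.map_inv, ih (by omega),
      ja_RExist g i h, jb_RExist g i h, dl_RExist, mul_inv_rev, mul_inv_rev, ci_RExist, ci_RExist]
    group

theorem jk_RExist (g l : ℕ) (h : l < 2 * g + 2) :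
    j_RExist g (k_RExist g l) = c_RExist g 0 * c_RExist g l := by
  rcases l with _ | l
  · rw [k_RExist, cc_RExist, _root_.map_one]
  obtain ⟨i, rfl | rfl⟩ := Nat.even_or_odd' l
  · rw [k1_RExist, _root_.map_mul, jU_RExist g i (by omega)]
    rcases Nat.lt_or_ge i g with hi | hi
    · rw [ja_RExist g i hi]
      group
    · obtain rfl : i = g := by omega
      rw [a_RExist, dif_neg (lt_irrefl _), _root_.map_one, mul_one, dl_last_RExist]
  · rw [show 2 * i + 1 + 1 = 2 * i + 2 from rfl, k2_RExist, _root_.map_mul, _root_.map_inv,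
      jU_RExist g i (by omega), jb_RExist g i (by omega), mul_inv_rev, ci_RExist]
    group

/-- the actions of the cone points on two copies of the surface group -/
def G_RExist (g l : ℕ) : Equiv.Perm (Bool × Surf g) := sP true (k_RExist g l) (k_RExist g l)⁻¹

theorem Gf_RExist (g l : ℕ) (u : Surf g) :
    G_RExist g l (false, u) = (true, k_RExist g l * u) := rfl

theorem Gt_RExist (g l : ℕ) (u : Surf g) :
    G_RExist g l (true, u) = (false, (k_RExist g l)⁻¹ * u) := rfl

theorem GG_RExist (g l : ℕ) : G_RExist g l * G_RExist g l = 1 := by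
  ext ⟨v, u⟩ : 1
  cases v
  · rw [Equiv.Perm.mul_apply, Gf_RExist, Gt_RExist, inv_mul_cancel_left]; rfl
  · rw [Equiv.Perm.mul_apply, Gt_RExist, Gf_RExist, mul_inv_cancel_left]; rfl

theorem dlG_RExist (g : ℕ) (G : ℕ → Equiv.Perm (Bool × Surf g))
    (hG : ∀ l, l < 2 * g + 2 → G l = G_RExist g l) (i : ℕ) (h : i ≤ g) (u : Surf g) :
    dl_RExist G i (false, u) = (true, U_RExist g i * u) ∧
    dl_RExist G i (true, u) = (false, P_RExist g i * (U_RExist g i)⁻¹ * u) := by
  induction i generalizing u with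
  | zero =>
    rw [dl_RExist, hG 0 (by omega), Gf_RExist, Gt_RExist, P_RExist, pr0_RExist, U_RExist, k_RExist]
    simp
  | succ i ih =>
    rw [dl_RExist, hG _ (by omega), hG _ (by omega)]
    simp only [Equiv.Perm.mul_apply, Gf_RExist, Gt_RExist]
    rw [(ih (by omega) _).1, (ih (by omega) _).2, k1_RExist, k2_RExist, U_RExist, P_RExist,
      prS_RExist]
    refine ⟨Prod.ext rfl ?_, Prod.ext rfl ?_⟩
    · dsimp only
      group
    · dsimp only
      group

theorem Gprod_RExist (g : ℕ) :
    (List.ofFn fun i : Fin (2 * g + 2) => G_RExist g i.val).prod = 1 := by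
  change pr_RExist (G_RExist g) (2 * g + 1 + 1) = 1
  rw [prS_RExist, ← dl_pr_RExist]
  have hk : k_RExist g (2 * g + 1) = U_RExist g g := by
    rw [k1_RExist, a_RExist, dif_neg (lt_irrefl _), mul_one]
  have h := dlG_RExist g (G_RExist g) (fun _ _ => rfl) g le_rfl
  ext ⟨v, u⟩ : 1
  cases v
  · rw [Equiv.Perm.mul_apply, Gf_RExist, (h _).2, hk, Pg_RExist, one_mul, inv_mul_cancel_left]
    rfl
  · rw [Equiv.Perm.mul_apply, Gt_RExist, (h _).1, hk, mul_inv_cancel_left]
    rfl

/-- the action on two copies of the surface group -/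
def R_RExist (g : ℕ) : Sph (2 * g + 2) →* Equiv.Perm (Bool × Surf g) :=
  sLift (fun i => G_RExist g i.val) (fun i => GG_RExist g i.val) (Gprod_RExist g)

theorem Rc_RExist (g l : ℕ) (h : l < 2 * g + 2) : R_RExist g (c_RExist g l) = G_RExist g l := by
  rw [c_RExist, dif_pos h, R_RExist, sLift_cs]

theorem Rd_RExist (g i : ℕ) (h : i ≤ g) (u : Surf g) :
    R_RExist g (dl_RExist (c_RExist g) i) (false, u) = (true, U_RExist g i * u) := by
  rw [dl_map_RExist]
  exact (dlG_RExist g _ (Rc_RExist g) i h u).1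

theorem Rj_RExist (g : ℕ) (x u : Surf g) :
    R_RExist g (j_RExist g x) (false, u) = (false, x * u) := by
  obtain ⟨y, rfl⟩ : ∃ y, mk_RExist g y = x := PresentedGroup.mk_surjective _ x
  induction y using FreeGroup.induction_on generalizing u with
  | C1 => simp
  | of s =>
    rcases s with i | i
    · rw [← av_RExist, ja_RExist g i i.2, _root_.map_mul, _root_.map_inv, Equiv.Perm.mul_apply,
        Rc_RExist g _ (by omega), Gf_RExist, k1_RExist, mul_assoc, ← Rd_RExist g i (by omega)]
      simp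
    · rw [← bv_RExist, jb_RExist g i i.2, _root_.map_mul, Equiv.Perm.mul_apply,
        Rc_RExist g _ (by omega), Rd_RExist g i (by omega), Gt_RExist, k2_RExist]
      refine Prod.ext rfl ?_
      dsimp only
      group
  | inv_of s ih =>
    have h := ih ((mk_RExist g (of s))⁻¹ * u)
    rw [mul_inv_cancel_left] at h
    rw [_root_.map_inv, _root_.map_inv, _root_.map_inv, Equiv.Perm.inv_eq_iff_eq]
    exact h.symm
  | mul y z hy hz =>
    rw [_root_.map_mul, _root_.map_mul, _root_.map_mul, Equiv.Perm.mul_apply, hz, hy, mul_assoc]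

theorem ex_ok : Ex_st := by
  intro g
  refine ⟨j_RExist g, (injective_iff_map_eq_one _).2 fun x hx => ?_, ?_⟩
  · have h := Rj_RExist g x 1
    rw [hx, _root_.map_one, mul_one] at h
    exact (congrArg Prod.snd h).symm
  · have h0 : c_RExist g 0 ∉ (j_RExist g).range := by
      rintro ⟨x, hx⟩
      have h := Rj_RExist g x 1
      rw [hx, Rc_RExist g 0 (by omega), Gf_RExist] at h
      exact Bool.noConfusion (congrArg Prod.fst h)
    have hl : ∀ i, c_RExist g 0 * cs i ∈ (j_RExist g).range := fun i =>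
      ⟨k_RExist g i.val, by rw [jk_RExist g _ i.2, cv_RExist]⟩
    have hor : ∀ z, c_RExist g 0 * z ∈ (j_RExist g).range ∨ z ∈ (j_RExist g).range := by
      intro z
      induction z using sph_ind with
      | h1 => exact Or.inr (Subgroup.one_mem _)
      | hm i z ih =>
        rcases ih with ih | ih
        · right
          have h := Subgroup.mul_mem _ (Subgroup.inv_mem _ (hl i)) ih
          rwa [mul_inv_rev, cs_inv, mul_assoc, inv_mul_cancel_left] at h
        · left
          rw [← mul_assoc]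
          exact Subgroup.mul_mem _ (hl i) ih
    refine Subgroup.index_eq_two_iff'.2 ⟨c_RExist g 0, fun z => ?_⟩
    have hn : ¬ (c_RExist g 0 * z ∈ (j_RExist g).range ∧ z ∈ (j_RExist g).range) := by
      rintro ⟨h1, h2⟩
      have h := Subgroup.mul_mem _ h1 (Subgroup.inv_mem _ h2)
      rw [mul_inv_cancel_right] at h
      exact h0 h
    rcases hor z with h | h
    · exact Or.inl ⟨h, fun h' => hn ⟨h, h'⟩⟩
    · exact Or.inr ⟨h, fun h' => hn ⟨h', h⟩⟩

end Pool.Agent.MP_692752_al
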