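import Mathlib

/-! The definitions used in the statements of the hand-ins. -/

set_option autoImplicit false

namespace Pool.Agent.MP_692752_al

/-- the product of the commutators of the standard generators -/
def surfRel (g : ℕ) : FreeGroup (Fin g ⊕ Fin g) :=
  (List.ofFn (fun i : Fin g => FreeGroup.of (Sum.inl i : Fin g ⊕ Fin g) *
    FreeGroup.of (Sum.inr i : Fin g ⊕ Fin g) * (FreeGroup.of (Sum.inl i : Fin g ⊕ Fin g))⁻¹ *
    (FreeGroup.of (Sum.inr i : Fin g ⊕ Fin g))⁻¹)).prod

/-- the fundamental group of the closed orientable surface of genus `g` -/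
def Surf (g : ℕ) : Type := PresentedGroup ({surfRel g} : Set (FreeGroup (Fin g ⊕ Fin g)))

instance instGroupSurf (g : ℕ) : Group (Surf g) :=
  instGroupPresentedGroup ({surfRel g} : Set (FreeGroup (Fin g ⊕ Fin g)))

/-- the inner automorphisms -/
def Inn (G : Type) [Group G] : Subgroup (MulAut G) := (MulAut.conj : G →* MulAut G).range

instance instNormalInn (G : Type) [Group G] : (Inn G).Normal where
  conj_mem := by
    rintro _ ⟨x, rfl⟩ α
    refine ⟨α x, ?_⟩
    ext y
    simp [MulAut.conj_apply]

/-- the outer automorphism group -/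
def Out (G : Type) [Group G] : Type := MulAut G ⧸ Inn G

instance instGroupOut (G : Type) [Group G] : Group (Out G) :=
  QuotientGroup.Quotient.group (Inn G)

/-- the projection from automorphisms to outer automorphisms -/
def toOut (G : Type) [Group G] : MulAut G →* Out G := QuotientGroup.mk' (Inn G)

/-- `H` is separable in `Γ` -/
def Separable {Γ : Type} [Group Γ] (H : Subgroup Γ) : Prop :=
  ∀ φ : Γ, φ ∉ H → ∃ K : Subgroup Γ, K.FiniteIndex ∧ H ≤ K ∧ φ ∉ K

/-- the automorphisms that carry the subgroup `K` onto itself -/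
def Stab {G : Type} [Group G] (K : Subgroup G) : Subgroup (MulAut G) where
  carrier := {α | ∀ x, α x ∈ K ↔ x ∈ K}
  one_mem' := fun _ => Iff.rfl
  mul_mem' := fun {a b} ha hb x => (ha (b x)).trans (hb x)
  inv_mem' := fun {a} ha x => by
    have := ha (a⁻¹ x)
    simpa using this.symm

/-- `α` maps `D` into `D` and induces an inner automorphism on the target of `θ` -/
def ActsInner {G F : Type} [Group G] [Group F] (D : Subgroup G) (θ : D →* F) (α : MulAut G) :
    Prop :=
  ∃ w : F, ∀ x : D, ∃ h : α x ∈ D, θ ⟨α x, h⟩ = w * θ x * w⁻¹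

/-- `f` is a crossed homomorphism to the integers twisted by the sign character `χ` -/
def Crossed {G : Type} [Group G] (χ : G →* ℤˣ) (f : G → ℤ) : Prop :=
  ∀ a b : G, f (a * b) = f a + (χ a : ℤ) * f b

/-- `α` fixes `χ` and acts trivially on the restrictions to `ker χ` of the crossed
homomorphisms -/
def PrymTrivial {G : Type} [Group G] (χ : G →* ℤˣ) (α : MulAut G) : Prop :=
  (∀ z, χ (α z) = χ z) ∧ ∀ f : G → ℤ, Crossed χ f → ∀ z, χ z = 1 → f (α z) = f z

end Pool.Agent.MP_692752_al
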