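import Pool.Agent.MP_692752_al.Stmt

/-! The definitions used in the statement about the torus with one cone point of order two. -/

set_option autoImplicit false

namespace Pool.Agent.MP_692752_al

/-- the square of the commutator of the two generators -/
def orbRel : FreeGroup (Fin 2) :=
  (FreeGroup.of 0 * FreeGroup.of 1 * (FreeGroup.of 0)⁻¹ * (FreeGroup.of 1)⁻¹) ^ 2

/-- the orbifold fundamental group of the torus with one cone point of order two -/
def Orb : Type := PresentedGroup ({orbRel} : Set (FreeGroup (Fin 2)))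

instance instGroupOrb : Group Orb :=
  instGroupPresentedGroup ({orbRel} : Set (FreeGroup (Fin 2)))

/-- the automorphisms that carry `D` onto itself and descend along `θ` to an automorphism of
the target of `θ` -/
def Desc {G F : Type} [Group G] [Group F] (D : Subgroup G) (θ : D →* F) :
    Subgroup (MulAut G) where
  carrier := {α | (∀ x, α x ∈ D ↔ x ∈ D) ∧
    ∃ β : MulAut F, ∀ (x : D) (h : α x ∈ D), θ ⟨α x, h⟩ = β (θ x)}
  one_mem' := ⟨fun _ => Iff.rfl, 1, fun _ _ => rfl⟩
  mul_mem' := by
    rintro a b ⟨ha, β, hβ⟩ ⟨hb, β', hβ'⟩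
    refine ⟨fun x => (ha (b x)).trans (hb x), β * β', fun x h => ?_⟩
    have h1 : b x ∈ D := (hb x).2 x.2
    exact (hβ ⟨b x, h1⟩ h).trans (congrArg β (hβ' x h1))
  inv_mem' := by
    rintro a ⟨ha, β, hβ⟩
    refine ⟨fun x => by simpa using (ha (a⁻¹ x)).symm, β⁻¹, fun x h => ?_⟩
    have h1 : a (a⁻¹ x) ∈ D := by simp
    have h2 := hβ ⟨a⁻¹ x, h⟩ h1
    have h3 : (⟨a (a⁻¹ x), h1⟩ : D) = x := Subtype.ext (by simp)
    rw [h3] at h2
    rw [h2]
    simp

end Pool.Agent.MP_692752_al
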