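import Pool.Agent.MP_692752_al.Stmt

/-! The definitions used in the statement about random subgroups of liftable mapping class
groups. -/

set_option autoImplicit false

namespace Pool.Agent.MP_692752_al

/-- the squares of the generators and the product of all generators -/
def sphRel (n : ℕ) : Set (FreeGroup (Fin n)) :=
  {r | (∃ i, r = FreeGroup.of i ^ 2) ∨ r = (List.ofFn fun i : Fin n => FreeGroup.of i).prod}

/-- the orbifold fundamental group of the sphere with `n` cone points of order two -/
def Sph (n : ℕ) : Type := PresentedGroup (sphRel n)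

instance instGroupSph (n : ℕ) : Group (Sph n) := instGroupPresentedGroup (sphRel n)

/-- the outer automorphisms of `G` with a representative that extends along `j` to an
automorphism of `F` -/
def Liftable {G F : Type} [Group G] [Group F] (j : G →* F) : Subgroup (Out G) where
  carrier := {φ | ∃ (α : MulAut G) (β : MulAut F), toOut G α = φ ∧ ∀ x, β (j x) = j (α x)}
  one_mem' := ⟨1, 1, map_one _, fun _ => rfl⟩
  mul_mem' := by
    rintro _ _ ⟨α, β, rfl, h⟩ ⟨α', β', rfl, h'⟩
    exact ⟨α * α', β * β', map_mul _ _ _, fun x => by
      rw [MulAut.mul_apply, MulAut.mul_apply, h', h]⟩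
  inv_mem' := by
    rintro _ ⟨α, β, rfl, h⟩
    refine ⟨α⁻¹, β⁻¹, map_inv _ _, fun x => ?_⟩
    rw [MulAut.inv_apply, MulEquiv.symm_apply_eq, h]
    simp

end Pool.Agent.MP_692752_al
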