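import Pool.Agent.MP_692752_al.Stmt

/-! The definitions used in the statement about pushing a branch point. -/

set_option autoImplicit false

namespace Pool.Agent.MP_692752_al

/-- the standard generators of the surface group -/
def gen (g : ℕ) (i : Fin g ⊕ Fin g) : Surf g := PresentedGroup.of i

theorem lift_surfRel {G : Type} [Group G] (g : ℕ) (f : Fin g ⊕ Fin g → G) :
    FreeGroup.lift f (surfRel g) = (List.ofFn fun i : Fin g =>
      f (Sum.inl i) * f (Sum.inr i) * (f (Sum.inl i))⁻¹ * (f (Sum.inr i))⁻¹).prod := by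
  rw [surfRel, map_list_prod, List.map_ofFn]
  simp [Function.comp_def]

theorem gen_rel (g : ℕ) : FreeGroup.lift (gen g) (surfRel g) = 1 := by
  have h : FreeGroup.lift (gen g) = PresentedGroup.mk {surfRel g} :=
    FreeGroup.ext_hom _ _ fun i => FreeGroup.lift_apply_of
  rw [h]
  exact PresentedGroup.one_of_mem rfl

theorem lift_add {G : Type} [Group G] (h : ℕ) (f : Fin (h + h) ⊕ Fin (h + h) → G) :
    FreeGroup.lift f (surfRel (h + h)) =
      FreeGroup.lift (fun i => f (Sum.map (Fin.castAdd h) (Fin.castAdd h) i)) (surfRel h) *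
      FreeGroup.lift (fun i => f (Sum.map (Fin.natAdd h) (Fin.natAdd h) i)) (surfRel h) := by
  rw [lift_surfRel, lift_surfRel, lift_surfRel, List.ofFn_add, List.prod_append]
  rfl

theorem turn_rel (h : ℕ) : ∀ r ∈ ({surfRel (h + h)} : Set (FreeGroup (Fin (h + h) ⊕ Fin (h + h)))),
    FreeGroup.lift (fun i => gen (h + h) (Sum.map finAddFlip finAddFlip i)) r = 1 := by
  rintro r rfl
  have e := gen_rel (h + h)
  rw [lift_add] at e ⊢
  simp only [Sum.map_map, Function.comp_def, finAddFlip_apply_castAdd, finAddFlip_apply_natAdd]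
  exact mul_eq_one_comm.1 e

theorem fold_rel (h : ℕ) : ∀ r ∈ ({surfRel (h + h)} : Set (FreeGroup (Fin (h + h) ⊕ Fin (h + h)))),
    FreeGroup.lift (fun i => gen h (Sum.map (Fin.addCases id id) (Fin.addCases id id) i)) r = 1 := by
  rintro r rfl
  rw [lift_add]
  have e : (fun i => gen h (Sum.map (fun x => x) (fun x => x) i)) = gen h := by
    funext i
    cases i <;> rfl
  simp only [Sum.map_map, Function.comp_def, Fin.addCases_left, Fin.addCases_right, id, e,
    gen_rel, mul_one]

/-- the half turn `a i ↦ a (i + h)`, `b i ↦ b (i + h)`, indices modulo `h + h` -/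
def turn (h : ℕ) : Surf (h + h) →* Surf (h + h) := PresentedGroup.toGroup (turn_rel h)

/-- the map `a i ↦ a (i mod h)`, `b i ↦ b (i mod h)` -/
def fold (h : ℕ) : Surf (h + h) →* Surf h := PresentedGroup.toGroup (fold_rel h)

/-- `α` carries `D` onto itself and descends along `θ`, up to an inner automorphism, to an
automorphism `β` that commutes with the half turn and induces the conjugation by `w` -/
def Pushes {G : Type} [Group G] {h : ℕ} (D : Subgroup G) (θ : D →* Surf (h + h)) (w : Surf h)
    (α : MulAut G) : Prop :=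
  (∀ x, α x ∈ D ↔ x ∈ D) ∧ ∃ (u : Surf (h + h)) (β : MulAut (Surf (h + h))),
    (∀ z, β (turn h z) = turn h (β z)) ∧ (∀ z, fold h (β z) = w * fold h z * w⁻¹) ∧
    ∀ (x : D) (hx : α x ∈ D), θ ⟨α x, hx⟩ = u * β (θ x) * u⁻¹

end Pool.Agent.MP_692752_al
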